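import Pool.Agent.T6.H39.HS.Line
import Pool.Agent.R421.Z8.Fam
import Pool.Agent.R421.Z12.Fam

/-!
# The families of the curves with a point of order 8 or 12: averages on the lines `v = w + 2 u`
-/

set_option autoImplicit false
set_option linter.all false

namespace Pool.Agent.T6.H39.HS

open Finset Pool.Agent.W262.RK Pool.Agent.W307.RT Pool.Agent.TH841.PT Pool.Agent.R421.HF
open Pool.Agent.R421.UR

section Eight

open Pool.Agent.R421.Z8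

/-- the average over short intervals, points of order 8 -/
theorem ln8 : ∃ α : ℝ, 0 < α ∧ α ≤ 1 ∧ ∀ L : ℕ, 1 ≤ L → ∃ C : ℝ, 0 ≤ C ∧
    ∀ (X : ℕ) (w N : ℤ), 1 ≤ X → w ≠ 0 → w.natAbs ≤ X ^ L → N.natAbs ≤ X ^ L →
    ∀ S : Finset ℤ, S ⊆ Ioc N (N + X) →
    (∀ a ∈ S, IsCoprime a (w + 2 * a) ∧ ∀ j, F5 a (w + 2 * a) j ≠ 0) →
    ∑ a ∈ S, ((2 : ℝ) ^ Module.finrank ℤ
        (EAB (-a ^ 4) (-((w + 2 * a) ^ 2 - a ^ 2) ^ 2)).toAffine.Point) ^ α ≤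
      C * (X : ℝ) * (∏ p ∈ w.natAbs.primeFactors, (1 + 1 / (p : ℝ))) ^ 12 := by
  have hP0 : ∀ j κ, 0 ≤ P5 j κ := by
    intro j κ
    unfold P5
    split_ifs <;> norm_num
  have hQ0 : ∀ j κ, 0 ≤ Q5 j κ := by
    intro j κ
    unfold Q5
    split_ifs <;> norm_num
  have hm := mdlG D5.cls ok5.cls3 D5.g D5.c 7 {1, -1, 2, -2} P5 Q5 (by decide) notsq hP0 hQ0
    (fun j p hp hz => gP5 j hp hz) (fun j p hp hz => gQ5 j hp hz) ok5.c1 D5.g_nonneg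
    (fun j p => by rw [ok5.rs_eq]; exact_mod_cast ok5.nr_le j p)
  have a1 : ∀ j : Fin 5, 0 < P5 j 1 := by
    intro j
    rcases fin5 j with rfl | rfl | rfl | rfl | rfl <;> simp [P5]
  have a2 : ∀ j : Fin 5, 0 ≤ (P5 j 1 + Q5 j 1) / 2 := by
    intro j
    have h1 := hP0 j 1
    have h2 := hQ0 j 1
    positivity
  have a3 : ∀ k : Fin 4, k ≠ 3 → Wc D5.cls (fun j => (P5 j 1 + Q5 j 1) / 2) k <
      Wo D5.cls (fun j => P5 j 1) - Wc D5.cls (fun j => P5 j 1) k := by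
    intro k hk
    have e1 : ∀ f : Fin 5 → ℝ, Wc D5.cls f k = ∑ j, if c5 j = k then f j else 0 := by
      intro f
      unfold Wc
      rw [sum_filter]
      rfl
    have e2 : ∀ f : Fin 5 → ℝ, Wo D5.cls f = ∑ j, if c5 j ≠ 3 then f j else 0 := by
      intro f
      unfold Wo
      rw [sum_filter]
      rfl
    rw [e1, e1, e2]
    simp only [Fin.sum_univ_five]
    have h4 : ∀ k : Fin 4, k ≠ 3 → k = 0 ∨ k = 1 ∨ k = 2 := by decide
    rcases h4 k hk with rfl | rfl | rfl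
    · simp [c5, P5, Q5]
      norm_num
    · simp [c5, P5, Q5]
      norm_num
    · simp [c5, P5, Q5]
      norm_num
  exact avgLS D5 ok5 _ _ a1 a2 a3 hm


end Eight

section Twelve

open Pool.Agent.R421.Z12

/-- the average over short intervals, points of order 12 -/
theorem ln12 : ∃ α : ℝ, 0 < α ∧ α ≤ 1 ∧ ∀ L : ℕ, 1 ≤ L → ∃ C : ℝ, 0 ≤ C ∧
    ∀ (X : ℕ) (w N : ℤ), 1 ≤ X → w ≠ 0 → w.natAbs ≤ X ^ L → N.natAbs ≤ X ^ L →
    ∀ S : Finset ℤ, S ⊆ Ioc N (N + X) →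
    (∀ a ∈ S, IsCoprime a (w + 2 * a) ∧ ∀ j, F7 a (w + 2 * a) j ≠ 0) →
    ∑ a ∈ S, ((2 : ℝ) ^ Module.finrank ℤ (EAB (-(4 * a ^ 3 * (w + 2 * a)) ^ 2)
        (-(((w + 2 * a) ^ 2 - a ^ 2) ^ 3 * ((w + 2 * a) ^ 2 + 3 * a ^ 2)))).toAffine.Point) ^ α ≤
      C * (X : ℝ) * (∏ p ∈ w.natAbs.primeFactors, (1 + 1 / (p : ℝ))) ^ 20 := by
  have hP0 : ∀ j κ, 0 ≤ P7 j κ := by
    intro j κ
    unfold P7
    split_ifs <;> norm_num
  have hQ0 : ∀ j κ, 0 ≤ Q7 j κ := by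
    intro j κ
    unfold Q7
    split_ifs
    · norm_num
    · norm_num
    · norm_num
    · exact hP0 j κ
  have hm := mdlG D7.cls ok7.cls3 D7.g D7.c 7 {1, -1, 3, -3} P7 Q7 (by decide) notsq hP0 hQ0
    (fun j p hp hz => gP7 j hp hz) (fun j p hp hz => gQ7 j hp hz) ok7.c1 D7.g_nonneg
    (fun j p => by rw [ok7.rs_eq]; exact_mod_cast ok7.nr_le j p)
  have a1 : ∀ j : Fin 7, 0 < P7 j 1 := by
    intro j
    rcases fin7 j with rfl | rfl | rfl | rfl | rfl | rfl | rfl <;> simp [P7]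
  have a2 : ∀ j : Fin 7, 0 ≤ (P7 j 1 + Q7 j 1) / 2 := by
    intro j
    have h1 := hP0 j 1
    have h2 := hQ0 j 1
    positivity
  have a3 : ∀ k : Fin 4, k ≠ 3 → Wc D7.cls (fun j => (P7 j 1 + Q7 j 1) / 2) k <
      Wo D7.cls (fun j => P7 j 1) - Wc D7.cls (fun j => P7 j 1) k := by
    intro k hk
    have e1 : ∀ f : Fin 7 → ℝ, Wc D7.cls f k = ∑ j, if c7 j = k then f j else 0 := by
      intro f
      unfold Wc
      rw [sum_filter]
      rfl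
    have e2 : ∀ f : Fin 7 → ℝ, Wo D7.cls f = ∑ j, if c7 j ≠ 3 then f j else 0 := by
      intro f
      unfold Wo
      rw [sum_filter]
      rfl
    rw [e1, e1, e2]
    simp only [Fin.sum_univ_seven]
    have h4 : ∀ k : Fin 4, k ≠ 3 → k = 0 ∨ k = 1 ∨ k = 2 := by decide
    rcases h4 k hk with rfl | rfl | rfl
    · simp [c7, P7, Q7]
      norm_num
    · simp [c7, P7, Q7]
      try norm_num
    · simp [c7, P7, Q7]
      try norm_num
  exact avgLS D7 ok7 _ _ a1 a2 a3 hm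


end Twelve

end Pool.Agent.T6.H39.HS
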