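import Pool.Agent.T6.H39.HS.Cnt
import Pool.Agent.R421.HF.Avg

/-!
# The average over the short squares far away from the origin
-/

set_option autoImplicit false
set_option linter.all false

namespace Pool.Agent.T6.H39.HS

open Finset Pool.Agent.W262.RK Pool.Agent.W307.RT Pool.Agent.TH841.PT Pool.Agent.R421.UR
open Pool.Agent.R421.HF

variable {J : Type} [Fintype J] [DecidableEq J]

/-- the scales -/
def Sc (L : ℕ) : Type := {θ : ℕ × ℤ × ℤ // 1 ≤ θ.1 ∧ θ.2.1.natAbs ≤ θ.1 ^ L ∧ θ.2.2.natAbs ≤ θ.1 ^ L}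

open Classical in
/-- **the average over the short squares** -/
theorem avgQ (D : HFam J) (hD : D.OK) (d σ : J → ℝ) (hd : ∀ j, 0 < d j) (hσ0 : ∀ j, 0 ≤ σ j)
    (hσ : ∀ k : Fin 4, k ≠ 3 → Wc D.cls σ k < Wo D.cls d - Wc D.cls d k)
    (hm : ∃ z0 : ℕ, ∀ z, z0 ≤ z → ∃ C0 E0 : ℝ, Mdl D.cls D.g d σ D.c z C0 E0) :
    ∃ α : ℝ, 0 < α ∧ α ≤ 1 ∧ ∀ L : ℕ, 1 ≤ L → ∃ C : ℝ, 0 ≤ C ∧ ∀ (X : ℕ) (U V : ℤ), 1 ≤ X →
      U.natAbs ≤ X ^ L → V.natAbs ≤ X ^ L →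
      ∑ t ∈ (Sq U V X).filter (fun t : ℤ × ℤ => IsCoprime t.1 t.2 ∧ ∀ j, D.F t.1 t.2 j ≠ 0),
        ((2 : ℝ) ^ Module.finrank ℤ (EAB (D.A t.1 t.2) (D.B t.1 t.2)).toAffine.Point) ^ α ≤
          C * (X : ℝ) ^ 2 := by
  obtain ⟨α, hα0, hα1, hmdl⟩ := mdl_alpha D.cls d σ hd hσ0 hσ
  refine ⟨α, hα0, hα1, ?_⟩
  intro L hL
  obtain ⟨z0, hz0⟩ := hm
  obtain ⟨z, hz⟩ : ∃ z : ℕ, z = z0 + D.z1 * (D.κ.natAbs + 1) ^ D.dg + D.z1 + 2 * D.c + 2 :=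
    ⟨_, rfl⟩
  obtain ⟨C0, E0, hM⟩ := hz0 z (by omega)
  obtain ⟨CM, hCM⟩ := hmdl D.g D.c z C0 E0 hM
  obtain ⟨Cc, K, y0, hCc0, hK1, hcn⟩ := cntQ D hD z (by omega) (by omega) (by omega) L hL
  -- the rank
  let r : ℤ × ℤ → ℝ := fun t =>
    ((2 : ℝ) ^ Module.finrank ℤ (EAB (D.A t.1 t.2) (D.B t.1 t.2)).toAffine.Point) ^ α
  have hr0 : ∀ t, 0 ≤ r t := fun t => Real.rpow_nonneg (by positivity) _
  have hgbd : ∀ (i : J × Ty) (p : ℕ), 0 ≤ D.g i p ∧ D.g i p ≤ D.c := fun i p =>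
    ⟨D.g_nonneg i p, hD.g_le i p⟩
  have hcz : D.c < z := by omega
  have hgn : ∀ {y' : ℕ} {s : J × Ty → ℕ} (_ : s ∈ Tup (J × Ty) z y')
      (i : J × Ty), 0 ≤ gp (D.g i) D.c (s i) := fun hs i =>
    gp_nonnegG hcz i ((Pool.Agent.W372.RK2.mem_Tup'.1 hs).1 i)
  have hbound : ∀ (X : ℕ) (U V : ℤ) (t : ℤ × ℤ), 1 ≤ X → U.natAbs ≤ X ^ L → V.natAbs ≤ X ^ L →
      t ∈ Sq U V X → t.1.natAbs ≤ 2 * X ^ L ∧ t.2.natAbs ≤ 2 * X ^ L := by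
    intro X U V t hX hU hV ht
    rw [mem_Sq] at ht
    obtain ⟨⟨b1, b2⟩, b3, b4⟩ := ht
    have h2 : X ≤ X ^ L := Nat.le_self_pow (by omega) X
    constructor <;> omega
  suffices key : ∃ C2 : ℝ, ∀ θ : Sc L, ∑ t ∈ (Sq θ.1.2.1 θ.1.2.2 θ.1.1).filter
      (fun t : ℤ × ℤ => IsCoprime t.1 t.2 ∧ ∀ j, D.F t.1 t.2 j ≠ 0), r t ≤
        C2 * ((θ.1.1 : ℝ) ^ 2) by
    obtain ⟨C2, hC2⟩ := key
    refine ⟨max C2 0, le_max_right _ _, fun X U V hX hU hV => ?_⟩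
    exact (hC2 ⟨(X, U, V), hX, hU, hV⟩).trans
      (mul_le_mul_of_nonneg_right (le_max_left _ _) (by positivity))
  refine Pool.Agent.Y455.Z8.antx (J × Ty) (ℤ × ℤ) (Sc L)
    (fun θ => (Sq θ.1.2.1 θ.1.2.2 θ.1.1).filter
      (fun t : ℤ × ℤ => IsCoprime t.1 t.2 ∧ ∀ j, D.F t.1 t.2 j ≠ 0))
    (fun θ => θ.1.1) (fun _ t => D.pr z t.1 t.2) (fun θ => (θ.1.1 : ℝ) ^ 2) z
    (fun y => Real.exp (∑ j, Sp (rs D.g j) z y))
    (fun s => NBA α (clsI D.cls) eI s * ∏ i, gp (D.g i) D.c (s i))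
    (fun v => ∏ i, ((4 : ℝ) ^ (v i).primeFactors.card * (gp (D.g i) D.c (v i) / v i)))
    (fun w => ∏ i, ((D.c : ℝ) ^ (w i).primeFactors.card / (w i : ℝ)))
    (fun _ t => r t) (Cc * (4 ^ (z + Fintype.card J + 2) * 4 ^ (Fintype.card J * D.dg)))
    ((4 ^ (Fintype.card J * D.dg)) ^ L) K y0
    (by omega) (fun y hy => Real.exp_pos _)
    (fun θ => θ.2.1) (fun θ => by positivity) (fun X0 => ?_) (fun θ t ht => ?_)
    (fun θ t => hr0 _) (by positivity) (one_le_pow₀ (one_le_pow₀ (by norm_num))) hK1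
    (fun y s hs => ⟨?_, ?_⟩) (fun y Y hzy w hw => ?_) (fun lam hlam => ?_)
    (fun lam hlam => ?_) (fun lam hlam => ?_) ?_
  · -- small scales
    refine ⟨∑ t ∈ Box (2 * X0 ^ L), r t, ?_⟩
    rintro ⟨⟨X, U, V⟩, hX, hU, hV⟩ hle
    simp only at hle hX hU hV ⊢
    have e1 : ∑ t ∈ (Sq U V X).filter (fun t : ℤ × ℤ =>
        IsCoprime t.1 t.2 ∧ ∀ j, D.F t.1 t.2 j ≠ 0), r t ≤ ∑ t ∈ Box (2 * X0 ^ L), r t := by
      refine sum_le_sum_of_subset_of_nonneg ?_ fun t _ _ => hr0 _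
      intro t ht
      have h4 := hbound X U V t hX hU hV (mem_filter.1 ht).1
      have h5 : X ^ L ≤ X0 ^ L := Nat.pow_le_pow_left hle L
      exact mem_Box.2 ⟨by omega, by omega⟩
    have e2 : (1 : ℝ) ≤ (X : ℝ) ^ 2 := one_le_pow₀ (by exact_mod_cast hX)
    exact e1.trans (le_mul_of_one_le_right (sum_nonneg fun _ _ => hr0 _) e2)
  · have h4 := (mem_filter.1 ht).2
    exact prv_Gd h4.2 (fun p hp hzp j l => hD.un p hp (by omega) _ _ (cop_nd h4.1 hp) j l)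
  · exact mul_nonneg (NBA_nonneg _ _ _) (prod_nonneg fun i _ => hgn hs i)
  · exact prod_nonneg fun i _ => mul_nonneg (by positivity)
      (div_nonneg (hgn hs i) (Nat.cast_nonneg _))
  · exact prod_nonneg fun i _ => by positivity
  · -- the first sum
    obtain ⟨A, hA⟩ := RSPf.rsp (J × Ty) z D.c D.g (NBA α (clsI D.cls) eI)
      (fun y => CM * Real.exp (∑ j, Sp (rs D.g j) z y)) 4 lam (by omega) hgbd (by norm_num) hlam
      (NBA_nonneg _ _)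
      (fun y hy s e' hse => suba hα0.le hα1 (clsI D.cls) eI z y s e' hse)
      (fun y hy => hCM y hy)
    refine ⟨A * CM, fun y hy => ?_⟩
    have := hA y hy
    rw [mul_assoc]
    exact this
  · exact RVU.rvp (J × Ty) z D.c D.g 4 lam (by omega) hgbd (by norm_num) hlam
  · exact RVU.rup (J × Ty) (D.c : ℝ) lam (by exact_mod_cast hD.c1) hlam
  -- the local majorant
  rintro ⟨⟨X, U, V⟩, hX1, hU, hV⟩ y Y k hy0 hzy hyK hk s hs v hv w hw h8 T' hT' hval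
  simp only at hX1 hU hV hyK hk h8 hT' hval ⊢
  obtain ⟨W, hW⟩ : ∃ W : ℝ, W = 4 ^ (z + Fintype.card J + 2) *
      (4 ^ (Fintype.card J * D.dg)) ^ (k * L + 1) * 4 ^ (∑ i, (v i).primeFactors.card) *
      NBA α (clsI D.cls) eI s := ⟨_, rfl⟩
  have hW0 : 0 ≤ W := by
    rw [hW]
    exact mul_nonneg (by positivity) (NBA_nonneg _ _ _)
  have hk' : 2 * X ^ L < (y + 1) ^ (k * L + 1) := by
    have h1 : X ^ L < ((y + 1) ^ k) ^ L := Nat.pow_lt_pow_left hk (by omega)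
    rw [← pow_mul] at h1
    rw [pow_succ]
    calc 2 * X ^ L < 2 * (y + 1) ^ (k * L) := by omega
      _ ≤ (y + 1) ^ (k * L) * (y + 1) := by
        rw [mul_comm]
        exact Nat.mul_le_mul_left _ (by omega)
  have e1 : ∀ t ∈ T', r t ≤ W := by
    intro t ht
    have h4 := mem_filter.1 (hT' ht)
    obtain ⟨hts, htv, _⟩ := hval t ht
    have h5 := hbound X U V t hX1 hU hV h4.1
    have h6 := rnkA hD hα0.le hα1 (z := z) (by omega) (by omega) h4.2.1 h4.2.2 h5.1 h5.2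
      (by have : 0 < X ^ L := Nat.pow_pos (by omega)
          omega) hzy hk'
    rw [hts, htv] at h6
    rw [hW]
    exact h6
  have e3 : (T'.card : ℝ) ≤ Cc * X ^ 2 * RWG D s v w * D.E z y := by
    refine le_trans ?_ (hcn X y Y hy0 hzy hyK s hs v hv w hw h8 U V hU hV)
    have h4 : T' ⊆ (Sq U V X).filter (fun t : ℤ × ℤ => GG D z y s v w t.1 t.2) := by
      intro t ht
      have h5 := mem_filter.1 (hT' ht)
      have h6 := hval t ht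
      exact mem_filter.2 ⟨h5.1, ⟨h5.2.1, h5.2.2, h6.1, h6.2.1, h6.2.2⟩⟩
    exact_mod_cast card_le_card h4
  calc ∑ t ∈ T', r t ≤ ∑ _t ∈ T', W := sum_le_sum e1
    _ = (T'.card : ℝ) * W := by rw [sum_const, nsmul_eq_mul]
    _ ≤ _ := mul_le_mul_of_nonneg_right e3 hW0
    _ = _ := by
        rw [hW, prod_mul_distrib (f := fun i => (4 : ℝ) ^ (v i).primeFactors.card),
          prod_pow_eq_pow_sum, E_eq hD]
        unfold RWG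
        rw [div_eq_mul_inv _ (Real.exp _), pow_succ _ (k * L), mul_comm k L, pow_mul _ L k]
        ring

open Classical in
/-- the average over a subset of a short square -/
theorem avgQS (D : HFam J) (hD : D.OK) (d σ : J → ℝ) (hd : ∀ j, 0 < d j) (hσ0 : ∀ j, 0 ≤ σ j)
    (hσ : ∀ k : Fin 4, k ≠ 3 → Wc D.cls σ k < Wo D.cls d - Wc D.cls d k)
    (hm : ∃ z0 : ℕ, ∀ z, z0 ≤ z → ∃ C0 E0 : ℝ, Mdl D.cls D.g d σ D.c z C0 E0) :
    ∃ α : ℝ, 0 < α ∧ α ≤ 1 ∧ ∀ L : ℕ, 1 ≤ L → ∃ C : ℝ, 0 ≤ C ∧ ∀ (X : ℕ) (U V : ℤ), 1 ≤ X →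
      U.natAbs ≤ X ^ L → V.natAbs ≤ X ^ L → ∀ S : Finset (ℤ × ℤ), S ⊆ Sq U V X →
      (∀ t ∈ S, IsCoprime t.1 t.2 ∧ ∀ j, D.F t.1 t.2 j ≠ 0) →
      ∑ t ∈ S,
        ((2 : ℝ) ^ Module.finrank ℤ (EAB (D.A t.1 t.2) (D.B t.1 t.2)).toAffine.Point) ^ α ≤
          C * (X : ℝ) ^ 2 := by
  obtain ⟨α, h1, h2, h⟩ := avgQ D hD d σ hd hσ0 hσ hm
  refine ⟨α, h1, h2, fun L hL => ?_⟩
  obtain ⟨C, h3, h4⟩ := h L hL
  refine ⟨C, h3, fun X U V hX hU hV S hS hS2 => ?_⟩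
  refine le_trans (sum_le_sum_of_subset_of_nonneg ?_ fun t _ _ =>
    Real.rpow_nonneg (by positivity) _) (h4 X U V hX hU hV)
  intro t ht
  exact mem_filter.2 ⟨hS ht, hS2 t ht⟩

end Pool.Agent.T6.H39.HS
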