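import Pool.Agent.R421.HF.Cnt
import Pool.Agent.W405.RS.AVHS

/-!
# The count of the coprime pairs in a short square far away from the origin

A version of `Pool.Agent.R421.HF.cntG` (boxes around the origin) for the squares
`(U, U + X] × (V, V + X]`, `|U|, |V| ≤ X ^ L`.
-/

set_option autoImplicit false
set_option linter.all false

namespace Pool.Agent.T6.H39.HS

open Finset Pool.Agent.W262.RK Pool.Agent.W307.RT Pool.Agent.TH841.PT Pool.Agent.R421.HF

variable {J : Type} [Fintype J] [DecidableEq J]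

/-- the square -/
noncomputable def Sq (U V : ℤ) (X : ℕ) : Finset (ℤ × ℤ) := Ioc U (U + X) ×ˢ Ioc V (V + X)

lemma mem_Sq {U V : ℤ} {X : ℕ} {t : ℤ × ℤ} :
    t ∈ Sq U V X ↔ (U < t.1 ∧ t.1 ≤ U + X) ∧ V < t.2 ∧ t.2 ≤ V + X := by
  unfold Sq
  rw [mem_product, mem_Ioc, mem_Ioc]

open Classical in
/-- CNT for short squares -/
theorem cntQ (D : HFam J) (hD : D.OK) (z : ℕ) (hz : D.z1 * (D.κ.natAbs + 1) ^ D.dg ≤ z)
    (hz1 : D.z1 ≤ z) (hzc : 2 * D.c + 2 ≤ z) (L : ℕ) (hL : 1 ≤ L) :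
    ∃ (C : ℝ) (K y0 : ℕ), 0 ≤ C ∧ 1 ≤ K ∧
    ∀ X y Y : ℕ, y0 ≤ y → z < y → y ^ K ≤ X →
    ∀ s ∈ Tup (J × Ty) z y, ∀ v ∈ Tup (J × Ty) z y, ∀ u ∈ Tup (J × Ty) y Y,
    (∏ i, s i * v i * u i) ^ 8 ≤ X → ∀ U V : ℤ, U.natAbs ≤ X ^ L → V.natAbs ≤ X ^ L →
      (((Sq U V X).filter (fun t : ℤ × ℤ => GG D z y s v u t.1 t.2)).card : ℝ) ≤
        C * X ^ 2 * RWG D s v u * D.E z y := by
  have hcz : D.c < z := by omega
  obtain ⟨C, K, y0, hC, hK, hfix⟩ := fix_leG D hD z hz1 hzc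
  obtain ⟨CA, hCA, hav⟩ := Pool.Agent.W405.RS.avhs D.c z L hzc
  obtain ⟨q, hq⟩ : ∃ q : ℕ, q = 2 * D.κ.natAbs + 1 := ⟨_, rfl⟩
  refine ⟨C * (CA * q) + 2, K + D.c, y0, by positivity, by omega, ?_⟩
  intro X y Y hy0 hzy hX s hs v hv u hu hsvu U V hU hV
  have hs' := (Pool.Agent.W372.RK2.mem_Tup'.1 hs).1
  have hv' := (Pool.Agent.W372.RK2.mem_Tup'.1 hv).1
  have hu' := (Pool.Agent.W372.RK2.mem_Tup'.1 hu).1
  have hy1 : 1 ≤ y := by omega
  have hX1 : 1 ≤ X := le_trans (Nat.one_le_pow _ _ hy1) hX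
  have hR := RWG_nonneg (Y := Y) (u := u) hcz hs' hv'
  have hE0 : 0 < D.E z y := Real.exp_pos _
  set R := RWG D s v u with hRdef
  set T := (Sq U V X).filter (fun t : ℤ × ℤ => GG D z y s v u t.1 t.2) with hT
  have hTG : ∀ t ∈ T, ((U < t.1 ∧ t.1 ≤ U + X) ∧ V < t.2 ∧ t.2 ≤ V + X) ∧
      GG D z y s v u t.1 t.2 := by
    intro t ht
    rw [hT, mem_filter, mem_Sq] at ht
    exact ht
  have hg0 : ∀ n : ℕ, 0 ≤ ∏ p ∈ n.primeFactors.filter (fun p => z < p),
        (p : ℝ) / ((p : ℝ) - (D.c : ℝ)) := by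
    intro n
    refine prod_nonneg fun p hp => ?_
    have : (D.c : ℝ) < p := by exact_mod_cast (by have := (mem_filter.1 hp).2; omega : D.c < p)
    exact div_nonneg (Nat.cast_nonneg _) (by linarith)
  -- the values of `w`
  obtain ⟨W0, hW0⟩ : ∃ W0 : ℤ, W0 = V - D.κ * U - (D.κ.natAbs * X : ℕ) := ⟨_, rfl⟩
  have hwle : ∀ t ∈ T, W0 < t.2 - D.κ * t.1 ∧ t.2 - D.κ * t.1 ≤ W0 + (q * X : ℕ) := by
    intro t ht
    obtain ⟨⟨⟨b1, b2⟩, b3, b4⟩, -⟩ := hTG t ht
    have h1 : |D.κ * (t.1 - U)| ≤ (D.κ.natAbs * X : ℕ) := by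
      rw [abs_mul, Int.abs_eq_natAbs D.κ]
      push_cast
      apply mul_le_mul_of_nonneg_left _ (abs_nonneg _)
      rw [abs_le]
      constructor <;> linarith
    have h2 := abs_le.1 h1
    have h3 : D.κ * (t.1 - U) = D.κ * t.1 - D.κ * U := by ring
    rw [h3] at h2
    have h4 : ((q * X : ℕ) : ℤ) = 2 * ((D.κ.natAbs * X : ℕ) : ℤ) + X := by
      rw [hq]; push_cast; ring
    rw [hW0, h4]
    constructor <;> linarith [h2.1, h2.2]
  have hW0n : W0.natAbs ≤ (q * X) ^ L := by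
    have h1 : W0.natAbs ≤ V.natAbs + D.κ.natAbs * U.natAbs + D.κ.natAbs * X := by
      rw [hW0]
      have e1 := Int.natAbs_sub_le (V - D.κ * U) ((D.κ.natAbs * X : ℕ) : ℤ)
      have e2 := Int.natAbs_sub_le V (D.κ * U)
      rw [Int.natAbs_mul] at e2
      rw [Int.natAbs_natCast] at e1
      omega
    have h2 : X ≤ X ^ L := Nat.le_self_pow (by omega) X
    have h3 : D.κ.natAbs * U.natAbs ≤ D.κ.natAbs * X ^ L := Nat.mul_le_mul_left _ hU
    have h4 : D.κ.natAbs * X ≤ D.κ.natAbs * X ^ L := Nat.mul_le_mul_left _ h2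
    have h5 : q * X ^ L ≤ (q * X) ^ L := by
      rw [mul_pow]
      exact Nat.mul_le_mul_right _ (Nat.le_self_pow (by omega) q)
    have h6 : q * X ^ L = D.κ.natAbs * X ^ L + D.κ.natAbs * X ^ L + X ^ L := by rw [hq]; ring
    omega
  have hqX : 1 ≤ q * X := Nat.mul_pos (by omega) (by omega)
  -- the bound for a fixed second variable
  have hfib : ∀ n ∈ (Icc 1 (q * X)).filter (fun n : ℕ => W0 + (n : ℤ) ≠ 0),
      ((T.filter (fun t : ℤ × ℤ => t.2 - D.κ * t.1 = W0 + (n : ℤ))).card : ℝ) ≤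
      (C * X * R * D.E z y) *
        ∏ p ∈ (W0 + (n : ℤ)).natAbs.primeFactors.filter (fun p => z < p),
        (p : ℝ) / ((p : ℝ) - (D.c : ℝ)) := by
    intro n hn
    have hw0 : W0 + (n : ℤ) ≠ 0 := (mem_filter.1 hn).2
    obtain ⟨w, hw⟩ : ∃ w : ℤ, w = W0 + (n : ℤ) := ⟨_, rfl⟩
    rw [← hw] at hw0 ⊢
    have h1 := hfix X y Y hy0 hzy ((Nat.pow_le_pow_right hy1 (by omega)).trans hX) s hs v hv u hu
      hsvu w (-U) hw0
    have h2 : (T.filter (fun t : ℤ × ℤ => t.2 - D.κ * t.1 = w)).card ≤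
        ((Icc 1 X).filter (fun t : ℕ =>
          GG D z y s v u ((t : ℤ) - (-U)) (w + D.κ * ((t : ℤ) - (-U))))).card := by
      apply card_le_card_of_injOn (fun t : ℤ × ℤ => (t.1 - U).toNat)
      · intro t ht
        have ht' := mem_filter.1 (mem_coe.1 ht)
        obtain ⟨⟨⟨b1, b2⟩, b3, b4⟩, g⟩ := hTG t ht'.1
        have e : (((t.1 - U).toNat : ℕ) : ℤ) = t.1 - U := Int.toNat_of_nonneg (by omega)
        have e0 : 1 ≤ (t.1 - U).toNat ∧ (t.1 - U).toNat ≤ X := by
          constructor <;> omega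
        rw [mem_coe, mem_filter, mem_Icc, e]
        refine ⟨e0, ?_⟩
        have e2 : t.1 - U - (-U) = t.1 := by ring
        have e3 : w + D.κ * t.1 = t.2 := by rw [← ht'.2]; ring
        rw [e2, e3]
        exact g
      · intro a ha b hb hab
        have ha' := mem_filter.1 (mem_coe.1 ha)
        have hb' := mem_filter.1 (mem_coe.1 hb)
        have ba := (hTG a ha'.1).1
        have bb := (hTG b hb'.1).1
        simp only at hab
        have e1 : a.1 = b.1 := by omega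
        refine Prod.ext e1 ?_
        have h3 := ha'.2
        have h4 := hb'.2
        rw [e1] at h3
        linarith
    refine (Nat.cast_le.2 h2).trans (h1.trans (le_of_eq ?_))
    rw [hRdef]
    unfold RWG
    ring
  -- the part with `w = 0`
  have hzero : ((T.filter (fun t : ℤ × ℤ => t.2 - D.κ * t.1 = 0)).card : ℝ) ≤
      2 * X ^ 2 * R * D.E z y := by
    have hsub : T.filter (fun t : ℤ × ℤ => t.2 - D.κ * t.1 = 0) ⊆ {(1, D.κ), (-1, -D.κ)} := by
      intro t ht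
      have ht' := mem_filter.1 ht
      have g := (hTG t ht'.1).2
      obtain ⟨a, b⟩ := t
      simp only at ht' g
      have hb : b = D.κ * a := by linarith [ht'.2]
      have h1 := g.cop
      rw [hb] at h1
      have h2 : IsUnit a := h1.isUnit_of_dvd' (dvd_refl a) (Dvd.intro_left _ rfl)
      rw [Int.isUnit_iff] at h2
      rw [mem_insert, mem_singleton]
      rcases h2 with h2 | h2
      · left
        rw [hb, h2, mul_one]
      · right
        rw [hb, h2, mul_neg_one]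
    rcases (T.filter (fun t : ℤ × ℤ => t.2 - D.κ * t.1 = 0)).eq_empty_or_nonempty with
      he | ⟨t, ht⟩
    · rw [he, card_empty, Nat.cast_zero]
      exact mul_nonneg (mul_nonneg (by positivity) hR) hE0.le
    · have ht1 := hsub ht
      have g := (hTG t (mem_filter.1 ht).1).2
      rw [mem_insert, mem_singleton] at ht1
      have h3 : (t.1 = 1 ∧ t.2 = D.κ) ∨ (t.1 = -1 ∧ t.2 = -D.κ) := by
        rcases ht1 with h | h
        · left; rw [h]; exact ⟨rfl, rfl⟩
        · right; rw [h]; exact ⟨rfl, rfl⟩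
      obtain ⟨q1, q2, q3⟩ := smallG hD hz hzy hs hv hu g h3
      have hR1 : R = 1 := RWG_one q1 q2 q3
      have hc : (T.filter (fun t : ℤ × ℤ => t.2 - D.κ * t.1 = 0)).card ≤ 2 :=
        (card_le_card hsub).trans (card_le_two)
      have hc' : ((T.filter (fun t : ℤ × ℤ => t.2 - D.κ * t.1 = 0)).card : ℝ) ≤ 2 := by
        exact_mod_cast hc
      refine hc'.trans ?_
      rw [hR1, mul_one]
      have h4 := E_ge hD hzy (by omega)
      have h5 : (y : ℝ) ^ D.c ≤ (X : ℝ) ^ 2 := by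
        have h6 : y ^ D.c ≤ X := (Nat.pow_le_pow_right hy1 (by omega)).trans hX
        have h7 : X ≤ X ^ 2 := Nat.le_self_pow two_ne_zero X
        exact_mod_cast h6.trans h7
      have h6 : 1 ≤ D.E z y * (X : ℝ) ^ 2 :=
        h4.trans (mul_le_mul_of_nonneg_left h5 hE0.le)
      linarith
  -- the sum
  have hsplit : (T.card : ℝ) ≤
      ∑ n ∈ (Icc 1 (q * X)).filter (fun n : ℕ => W0 + (n : ℤ) ≠ 0),
        ((T.filter (fun t : ℤ × ℤ => t.2 - D.κ * t.1 = W0 + (n : ℤ))).card : ℝ) +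
      ((T.filter (fun t : ℤ × ℤ => t.2 - D.κ * t.1 = 0)).card : ℝ) := by
    have h1 : T.card = ∑ n ∈ Icc 1 (q * X),
        (T.filter (fun t : ℤ × ℤ => (t.2 - D.κ * t.1 - W0).toNat = n)).card := by
      apply card_eq_sum_card_fiberwise (f := fun t : ℤ × ℤ => (t.2 - D.κ * t.1 - W0).toNat)
      intro t ht
      have b := hwle t (mem_coe.1 ht)
      rw [mem_coe, mem_Icc]
      simp only
      constructor <;> omega
    have h1' : ∀ n ∈ Icc 1 (q * X),
        (T.filter (fun t : ℤ × ℤ => (t.2 - D.κ * t.1 - W0).toNat = n)).card =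
        (T.filter (fun t : ℤ × ℤ => t.2 - D.κ * t.1 = W0 + (n : ℤ))).card := by
      intro n hn
      have hn1 := (mem_Icc.1 hn).1
      congr 1
      apply filter_congr
      intro t ht
      have b := hwle t ht
      constructor
      · intro h
        have h2 : (((t.2 - D.κ * t.1 - W0).toNat : ℕ) : ℤ) = t.2 - D.κ * t.1 - W0 :=
          Int.toNat_of_nonneg (by linarith [b.1])
        rw [h] at h2
        linarith
      · intro h
        rw [h]
        have : W0 + (n : ℤ) - W0 = (n : ℤ) := by ring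
        rw [this, Int.toNat_natCast]
    rw [h1, sum_congr rfl h1', Nat.cast_sum,
      ← sum_filter_add_sum_filter_not _ (fun n : ℕ => W0 + (n : ℤ) ≠ 0)]
    apply add_le_add le_rfl
    rcases ((Icc 1 (q * X)).filter (fun n : ℕ => ¬ W0 + (n : ℤ) ≠ 0)).eq_empty_or_nonempty with
      he | ⟨m, hm⟩
    · rw [he, sum_empty]
      exact Nat.cast_nonneg _
    · have hm0 : W0 + (m : ℤ) = 0 := not_not.1 (mem_filter.1 hm).2
      have h2 : (Icc 1 (q * X)).filter (fun n : ℕ => ¬ W0 + (n : ℤ) ≠ 0) ⊆ {m} := by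
        intro n hn
        rw [mem_filter, not_not] at hn
        rw [mem_singleton]
        have := hn.2
        omega
      refine (sum_le_sum_of_subset_of_nonneg h2 (fun _ _ _ => Nat.cast_nonneg _)).trans ?_
      rw [sum_singleton, hm0]
  have hsum : ∑ n ∈ (Icc 1 (q * X)).filter (fun n : ℕ => W0 + (n : ℤ) ≠ 0),
        ((T.filter (fun t : ℤ × ℤ => t.2 - D.κ * t.1 = W0 + (n : ℤ))).card : ℝ) ≤
      (C * X * R * D.E z y) * (CA * (q * X)) := by
    refine (sum_le_sum hfib).trans ?_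
    rw [← mul_sum]
    apply mul_le_mul_of_nonneg_left _
      (mul_nonneg (mul_nonneg (mul_nonneg hC (by positivity)) hR) hE0.le)
    refine (sum_le_sum_of_subset_of_nonneg (filter_subset _ _) fun n _ _ => hg0 _).trans ?_
    have := hav W0 (q * X) hqX hW0n
    push_cast at this ⊢
    exact this
  have e : (C * (CA * q) + 2) * X ^ 2 * R * D.E z y =
      (C * X * R * D.E z y) * (CA * (q * X)) + 2 * X ^ 2 * R * D.E z y := by ring
  rw [e]
  linarith

end Pool.Agent.T6.H39.HS
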