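import Pool.Agent.T6.H39.HS.Fams
import Pool.Agent.R421.Z8.Fin
import Pool.Agent.R421.Z12.Fin

/-!
# The curves with a point of order 8 or 12
-/

set_option autoImplicit false

namespace Pool.Agent.T6.H39.HS

open Finset Pool.Agent.W262.RK Pool.Agent.W307.RT Pool.Agent.R421.HF

/-- the curve `y² = x (x² + (s² - 2 r) x + r²)` -/
def Cu (s r : ℤ) : WeierstrassCurve ℚ := ⟨0, (s : ℚ) ^ 2 - 2 * r, 0, (r : ℚ) ^ 2, 0⟩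

/-- the curve is isomorphic to a curve in short form -/
theorem cu_iso {A B s r e : ℤ} (h : Rel4 A B (3 * s) (9 * r) e) :
    Nonempty ((Sh A B).toAffine.Point ≃+ (Cu s r).toAffine.Point) := by
  have he : 3 * (e : ℚ) = (3 * s : ℚ) ^ 2 - 2 * (9 * r) := by exact_mod_cast h.he
  have hA : (A : ℚ) = (9 * r : ℚ) ^ 2 - 3 * e ^ 2 := by exact_mod_cast h.hA
  have hB : (B : ℚ) = 2 * e ^ 3 - (9 * r : ℚ) ^ 2 * e := by exact_mod_cast h.hB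
  obtain ⟨φ⟩ := Pool.Agent.W261.RT.iso 0 A B e 3 (by norm_num)
  have hW : (⟨0, ((0 : ℚ) + 3 * e) / (3 : ℚ) ^ 2, 0,
      ((A : ℚ) + 2 * e * 0 + 3 * (e : ℚ) ^ 2) / (3 : ℚ) ^ 4,
      ((B : ℚ) + e * A + (e : ℚ) ^ 2 * 0 + (e : ℚ) ^ 3) / (3 : ℚ) ^ 6⟩ : WeierstrassCurve ℚ)
      = Cu s r := by
    unfold Cu
    simp only [WeierstrassCurve.mk.injEq, true_and]
    refine ⟨?_, ?_, ?_⟩
    · rw [zero_add, he]; ring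
    · rw [hA]; ring
    · rw [hA, hB]; ring
  rw [hW] at φ
  exact ⟨φ⟩

/-- existence of the short form -/
theorem ex_rel {s r : ℤ} (hs : s ≠ 0) (hr : r ≠ 0) (hd : s ^ 2 - 4 * r ≠ 0) :
    ∃ A B e : ℤ, Rel4 A B (3 * s) (9 * r) e := by
  refine ⟨(9 * r) ^ 2 - 3 * (3 * (s ^ 2 - 2 * r)) ^ 2,
    2 * (3 * (s ^ 2 - 2 * r)) ^ 3 - (9 * r) ^ 2 * (3 * (s ^ 2 - 2 * r)), 3 * (s ^ 2 - 2 * r),
    by ring, rfl, rfl, by omega, by omega, ?_⟩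
  intro h
  apply hd
  have : 9 * (s ^ 2 - 4 * r) = 0 := by linarith
  omega

/-- transfer of points and of the rank -/
theorem transfer {A B s r e : ℤ} (h : Rel4 A B (3 * s) (9 * r) e) :
    (∀ m : ℕ, (∃ P : (Sh A B).toAffine.Point, addOrderOf P = m) →
      ∃ P : (Cu s r).toAffine.Point, addOrderOf P = m) ∧
    Module.finrank ℤ (Sh A B).toAffine.Point = Module.finrank ℤ (Cu s r).toAffine.Point := by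
  obtain ⟨φ⟩ := cu_iso h
  refine ⟨?_, LinearEquiv.finrank_eq φ.toIntLinearEquiv⟩
  rintro m ⟨P, hP⟩
  refine ⟨φ P, ?_⟩
  rw [← hP]
  exact addOrderOf_injective φ.toAddMonoidHom φ.injective P

/-! ### Order 8 -/

/-- the forms of the family with a point of order 8 -/
theorem f8 {u v : ℤ} (h0 : 2 * u ^ 2 ≠ 0) (h1 : (v ^ 2 - u ^ 2) ^ 2 ≠ 0)
    (h2 : (2 * u ^ 2) ^ 2 - 4 * (v ^ 2 - u ^ 2) ^ 2 ≠ 0) :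
    ∀ j, Pool.Agent.R421.Z8.F5 u v j ≠ 0 := by
  have e1 : (v ^ 2 - u ^ 2) ^ 2 = ((v - u) * (v + u)) ^ 2 := by ring
  have e2 : (2 * u ^ 2) ^ 2 - 4 * (v ^ 2 - u ^ 2) ^ 2 = -(4 * v ^ 2 * (v ^ 2 - 2 * u ^ 2)) := by ring
  rw [e1] at h1
  rw [e2] at h2
  intro j
  unfold Pool.Agent.R421.Z8.F5
  fin_cases j
  · exact fun h => h0 (by simp only [Fin.isValue, Matrix.cons_val_zero, Fin.zero_eta] at h; rw [h]; norm_num)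
  · exact fun h => h1 (by simp at h; rw [h]; ring)
  · exact fun h => h1 (by simp at h; rw [h]; ring)
  · exact fun h => h2 (by simp at h; rw [h]; ring)
  · exact fun h => h2 (by simp at h; rw [h]; ring)

theorem f8' {u v : ℤ} (h : ∀ j, Pool.Agent.R421.Z8.F5 u v j ≠ 0) :
    2 * u ^ 2 ≠ 0 ∧ (v ^ 2 - u ^ 2) ^ 2 ≠ 0 ∧ (2 * u ^ 2) ^ 2 - 4 * (v ^ 2 - u ^ 2) ^ 2 ≠ 0 := by
  have h0 : u ≠ 0 := h 0
  have h1 : v - u ≠ 0 := h 1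
  have h2 : v + u ≠ 0 := h 2
  have h3 : v ≠ 0 := h 3
  have h4 : v ^ 2 - 2 * u ^ 2 ≠ 0 := h 4
  have e1 : (v ^ 2 - u ^ 2) ^ 2 = ((v - u) * (v + u)) ^ 2 := by ring
  have e2 : (2 * u ^ 2) ^ 2 - 4 * (v ^ 2 - u ^ 2) ^ 2 = -(4 * v ^ 2 * (v ^ 2 - 2 * u ^ 2)) := by ring
  refine ⟨by positivity, ?_, ?_⟩
  · rw [e1]
    positivity
  · rw [e2, neg_ne_zero]
    exact mul_ne_zero (by positivity) h4

theorem pt8 {u v : ℤ} (h : ∀ j, Pool.Agent.R421.Z8.F5 u v j ≠ 0) :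
    ∃ P : (Cu (2 * u ^ 2) ((v ^ 2 - u ^ 2) ^ 2)).toAffine.Point, addOrderOf P = 8 := by
  obtain ⟨g0, g1, g2⟩ := f8' h
  obtain ⟨A, B, e, hR⟩ := ex_rel g0 g1 g2
  refine (transfer hR).1 8 ?_
  have h0 : u ≠ 0 := h 0
  have h1 : v - u ≠ 0 := h 1
  have h2 : v + u ≠ 0 := h 2
  have h3 : v ≠ 0 := h 3
  refine hR.pt8 (u := 3 * (v ^ 2 - u ^ 2)) (v := 6 * u * v) (by ring) (by ring) ?_
  have e1 : 3 * (v ^ 2 - u ^ 2) * (6 * u * v) *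
      (3 * (2 * u ^ 2) + 3 * (v ^ 2 - u ^ 2) + 6 * u * v) =
      54 * ((v - u) * (v + u) ^ 3 * (u * v)) := by ring
  rw [e1]
  positivity

theorem rk8 {u v : ℤ} (hc : IsCoprime u v) (h : ∀ j, Pool.Agent.R421.Z8.F5 u v j ≠ 0) :
    Module.finrank ℤ (Cu (2 * u ^ 2) ((v ^ 2 - u ^ 2) ^ 2)).toAffine.Point ≤
      Module.finrank ℤ (EAB (-u ^ 4) (-(v ^ 2 - u ^ 2) ^ 2)).toAffine.Point := by
  obtain ⟨g0, g1, g2⟩ := f8' h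
  obtain ⟨A, B, e, hR⟩ := ex_rel g0 g1 g2
  rw [← (transfer hR).2]
  exact Pool.Agent.R421.Z8.rel8_rank (A := A) (B := B) (mn := (u, v))
    ⟨3 * (2 * u ^ 2), 9 * (v ^ 2 - u ^ 2) ^ 2, e, 6, hR, by norm_num, hc, h, by ring, by ring⟩

theorem all8 {A B : ℤ} (hD : 4 * A ^ 3 + 27 * B ^ 2 ≠ 0)
    (hT : ∃ P : (Sh A B).toAffine.Point, addOrderOf P = 8) :
    ∃ u v : ℤ, IsCoprime u v ∧ (∀ j, Pool.Agent.R421.Z8.F5 u v j ≠ 0) ∧ ∃ c e : ℚ, c ≠ 0 ∧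
      ∀ x : ℚ, (c ^ 2 * x + e) ^ 3 + A * (c ^ 2 * x + e) + B =
        c ^ 6 * (x ^ 3 + (((2 * u ^ 2 : ℤ) : ℚ) ^ 2 - 2 * ((v ^ 2 - u ^ 2) ^ 2 : ℤ)) * x ^ 2 +
          (((v ^ 2 - u ^ 2) ^ 2 : ℤ) : ℚ) ^ 2 * x) := by
  obtain ⟨⟨u, v⟩, s, t, e, k, hR, hk, hc, hF, h1, h2⟩ := Pool.Agent.R421.Z8.core8 hD hT
  refine ⟨u, v, hc, hF, (k : ℚ) / 2, e, ?_, fun x => ?_⟩
  · have : (k : ℚ) ≠ 0 := by exact_mod_cast hk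
    positivity
  · have he : 3 * (e : ℚ) = s ^ 2 - 2 * t := by exact_mod_cast hR.he
    have hA : (A : ℚ) = t ^ 2 - 3 * e ^ 2 := by exact_mod_cast hR.hA
    have hB : (B : ℚ) = 2 * e ^ 3 - t ^ 2 * e := by exact_mod_cast hR.hB
    have hs : (s : ℚ) = k * u ^ 2 := by exact_mod_cast h1
    have ht : (t : ℚ) = k ^ 2 * (v ^ 2 - u ^ 2) ^ 2 / 4 := by
      have h3 : 4 * (t : ℚ) = k ^ 2 * (v ^ 2 - u ^ 2) ^ 2 := by exact_mod_cast h2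
      linarith
    rw [hA, hB]
    push_cast
    have e3 : ((k / 2 : ℚ) ^ 2 * x + e) ^ 3 + (t ^ 2 - 3 * (e : ℚ) ^ 2) * ((k / 2 : ℚ) ^ 2 * x + e) +
        (2 * (e : ℚ) ^ 3 - t ^ 2 * e) = ((k / 2 : ℚ) ^ 2 * x) ^ 3 +
          (3 * (e : ℚ)) * ((k / 2 : ℚ) ^ 2 * x) ^ 2 + t ^ 2 * ((k / 2 : ℚ) ^ 2 * x) := by ring
    rw [e3, he, hs, ht]
    ring

/-! ### Order 12 -/

theorem f12 {u v : ℤ} (h0 : 8 * u ^ 3 * v ≠ 0) (h1 : (v ^ 2 - u ^ 2) ^ 3 * (v ^ 2 + 3 * u ^ 2) ≠ 0)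
    (h2 : (8 * u ^ 3 * v) ^ 2 - 4 * ((v ^ 2 - u ^ 2) ^ 3 * (v ^ 2 + 3 * u ^ 2)) ≠ 0) :
    ∀ j, Pool.Agent.R421.Z12.F7 u v j ≠ 0 := by
  have e1 : (v ^ 2 - u ^ 2) ^ 3 * (v ^ 2 + 3 * u ^ 2) =
      ((v - u) * (v + u)) ^ 3 * (v ^ 2 + 3 * u ^ 2) := by ring
  have e2 : (8 * u ^ 3 * v) ^ 2 - 4 * ((v ^ 2 - u ^ 2) ^ 3 * (v ^ 2 + 3 * u ^ 2)) =
      -(4 * ((v ^ 2 - 3 * u ^ 2) * (v ^ 2 + u ^ 2) ^ 3)) := by ring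
  rw [e1] at h1
  rw [e2] at h2
  intro j
  unfold Pool.Agent.R421.Z12.F7
  fin_cases j
  · exact fun h => h0 (by simp at h; rw [h]; ring)
  · exact fun h => h0 (by simp at h; rw [h]; ring)
  · exact fun h => h1 (by simp at h; rw [h]; ring)
  · exact fun h => h1 (by simp at h; rw [h]; ring)
  · exact fun h => h1 (by simp at h; rw [h]; ring)
  · exact fun h => h2 (by simp at h; rw [h]; ring)
  · exact fun h => h2 (by simp at h; rw [h]; ring)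

theorem f12' {u v : ℤ} (h : ∀ j, Pool.Agent.R421.Z12.F7 u v j ≠ 0) :
    8 * u ^ 3 * v ≠ 0 ∧ (v ^ 2 - u ^ 2) ^ 3 * (v ^ 2 + 3 * u ^ 2) ≠ 0 ∧
      (8 * u ^ 3 * v) ^ 2 - 4 * ((v ^ 2 - u ^ 2) ^ 3 * (v ^ 2 + 3 * u ^ 2)) ≠ 0 := by
  have h0 : u ≠ 0 := h 0
  have h1 : v ≠ 0 := h 1
  have h2 : v - u ≠ 0 := h 2
  have h3 : v + u ≠ 0 := h 3
  have h4 : v ^ 2 + 3 * u ^ 2 ≠ 0 := h 4
  have h5 : v ^ 2 + u ^ 2 ≠ 0 := h 5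
  have h6 : v ^ 2 - 3 * u ^ 2 ≠ 0 := h 6
  have e1 : (v ^ 2 - u ^ 2) ^ 3 * (v ^ 2 + 3 * u ^ 2) =
      ((v - u) * (v + u)) ^ 3 * (v ^ 2 + 3 * u ^ 2) := by ring
  have e2 : (8 * u ^ 3 * v) ^ 2 - 4 * ((v ^ 2 - u ^ 2) ^ 3 * (v ^ 2 + 3 * u ^ 2)) =
      -(4 * ((v ^ 2 - 3 * u ^ 2) * (v ^ 2 + u ^ 2) ^ 3)) := by ring
  refine ⟨by positivity, ?_, ?_⟩
  · rw [e1]
    exact mul_ne_zero (pow_ne_zero 3 (mul_ne_zero h2 h3)) h4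
  · rw [e2, neg_ne_zero]
    exact mul_ne_zero (by norm_num) (mul_ne_zero h6 (pow_ne_zero 3 h5))

theorem pt12 {u v : ℤ} (h : ∀ j, Pool.Agent.R421.Z12.F7 u v j ≠ 0) :
    ∃ P : (Cu (8 * u ^ 3 * v) ((v ^ 2 - u ^ 2) ^ 3 * (v ^ 2 + 3 * u ^ 2))).toAffine.Point,
      addOrderOf P = 12 := by
  obtain ⟨g0, g1, g2⟩ := f12' h
  obtain ⟨A, B, e, hR⟩ := ex_rel g0 g1 g2
  refine (transfer hR).1 12 ?_
  have h0 : u ≠ 0 := h 0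
  have h2 : v - u ≠ 0 := h 2
  have h3 : v + u ≠ 0 := h 3
  have h5 : v ^ 2 + u ^ 2 ≠ 0 := h 5
  refine Pool.Agent.R421.Z12.pt12 hR (Pool.Agent.R421.Z12.pt3 hR (X := 9 * (v ^ 2 - u ^ 2) ^ 4)
    (Y := 108 * (v ^ 2 - u ^ 2) ^ 4 * u ^ 2 * (v ^ 2 + u ^ 2))
    (L := 3 * (3 * u ^ 4 + 6 * u ^ 2 * v ^ 2 - v ^ 4)) ?_ ?_ ?_ ?_)
  · have e1 : v ^ 2 - u ^ 2 = (v - u) * (v + u) := by ring
    rw [e1]
    exact mul_ne_zero (mul_ne_zero (mul_ne_zero (by norm_num)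
      (pow_ne_zero 4 (mul_ne_zero h2 h3))) (pow_ne_zero 2 h0)) h5
  · ring
  · ring
  · ring

theorem rk12 {u v : ℤ} (hc : IsCoprime u v) (h : ∀ j, Pool.Agent.R421.Z12.F7 u v j ≠ 0) :
    Module.finrank ℤ
      (Cu (8 * u ^ 3 * v) ((v ^ 2 - u ^ 2) ^ 3 * (v ^ 2 + 3 * u ^ 2))).toAffine.Point ≤
      Module.finrank ℤ (EAB (-(4 * u ^ 3 * v) ^ 2)
        (-((v ^ 2 - u ^ 2) ^ 3 * (v ^ 2 + 3 * u ^ 2)))).toAffine.Point := by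
  obtain ⟨g0, g1, g2⟩ := f12' h
  obtain ⟨A, B, e, hR⟩ := ex_rel g0 g1 g2
  rw [← (transfer hR).2]
  exact Pool.Agent.R421.Z12.rel12_rank (A := A) (B := B) (mn := (u, v))
    ⟨3 * (8 * u ^ 3 * v), 9 * ((v ^ 2 - u ^ 2) ^ 3 * (v ^ 2 + 3 * u ^ 2)), e, hR, hc, h, by ring⟩

theorem all12 {A B : ℤ} (hD : 4 * A ^ 3 + 27 * B ^ 2 ≠ 0)
    (hT : ∃ P : (Sh A B).toAffine.Point, addOrderOf P = 12) :
    ∃ u v : ℤ, IsCoprime u v ∧ (∀ j, Pool.Agent.R421.Z12.F7 u v j ≠ 0) ∧ ∃ c e : ℚ, c ≠ 0 ∧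
      ∀ x : ℚ, (c ^ 2 * x + e) ^ 3 + A * (c ^ 2 * x + e) + B =
        c ^ 6 * (x ^ 3 + (((8 * u ^ 3 * v : ℤ) : ℚ) ^ 2 -
          2 * ((v ^ 2 - u ^ 2) ^ 3 * (v ^ 2 + 3 * u ^ 2) : ℤ)) * x ^ 2 +
          (((v ^ 2 - u ^ 2) ^ 3 * (v ^ 2 + 3 * u ^ 2) : ℤ) : ℚ) ^ 2 * x) := by
  obtain ⟨⟨u, v⟩, s, t, e, hR, hc, hF, h2⟩ := Pool.Agent.R421.Z12.core12 hD hT
  have hu : u ≠ 0 := hF 0
  have hv : v ≠ 0 := hF 1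
  have huq : (u : ℚ) ≠ 0 := by exact_mod_cast hu
  have hvq : (v : ℚ) ≠ 0 := by exact_mod_cast hv
  have hsq : (s : ℚ) ≠ 0 := by exact_mod_cast hR.hs
  have hq : (8 * u ^ 3 * v : ℚ) ≠ 0 := by positivity
  obtain ⟨c, hcd⟩ : ∃ c : ℚ, c = s / (8 * u ^ 3 * v) := ⟨_, rfl⟩
  have hs : (s : ℚ) = c * (8 * u ^ 3 * v) := by rw [hcd]; field_simp
  refine ⟨u, v, hc, hF, c, e, ?_, fun x => ?_⟩
  · rw [hcd]
    exact div_ne_zero hsq hq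
  · have he : 3 * (e : ℚ) = s ^ 2 - 2 * t := by exact_mod_cast hR.he
    have hA : (A : ℚ) = t ^ 2 - 3 * e ^ 2 := by exact_mod_cast hR.hA
    have hB : (B : ℚ) = 2 * e ^ 3 - t ^ 2 * e := by exact_mod_cast hR.hB
    have ht : (t : ℚ) = c ^ 2 * ((v ^ 2 - u ^ 2) ^ 3 * (v ^ 2 + 3 * u ^ 2)) := by
      have h3 : (s : ℚ) ^ 2 * ((v ^ 2 - u ^ 2) ^ 3 * (v ^ 2 + 3 * u ^ 2)) =
          4 * t * (4 * u ^ 3 * v) ^ 2 := by exact_mod_cast h2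
      rw [hs] at h3
      have h4 : (64 * u ^ 6 * v ^ 2 : ℚ) ≠ 0 := by positivity
      apply mul_left_cancel₀ h4
      linear_combination -h3
    rw [hA, hB]
    push_cast
    have e3 : (c ^ 2 * x + e) ^ 3 + (t ^ 2 - 3 * (e : ℚ) ^ 2) * (c ^ 2 * x + e) +
        (2 * (e : ℚ) ^ 3 - t ^ 2 * e) = (c ^ 2 * x) ^ 3 +
          (3 * (e : ℚ)) * (c ^ 2 * x) ^ 2 + t ^ 2 * (c ^ 2 * x) := by ring
    rw [e3, he, hs, ht]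
    ring

end Pool.Agent.T6.H39.HS
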