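import Pool.Agent.R421.HF.Avg

/-!
# The average over the short intervals on a line of parameters
-/

set_option autoImplicit false
set_option linter.all false

namespace Pool.Agent.T6.H39.HS

open Finset Pool.Agent.W262.RK Pool.Agent.W307.RT Pool.Agent.TH841.PT Pool.Agent.R421.UR
open Pool.Agent.R421.HF

variable {J : Type} [Fintype J] [DecidableEq J]

/-- the scales: the length of the interval, the line, the left end of the interval -/
def ScL (L : ℕ) : Type := {θ : ℕ × ℤ × ℤ // 1 ≤ θ.1 ∧ θ.2.1 ≠ 0 ∧ θ.2.1.natAbs ≤ θ.1 ^ L ∧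
  θ.2.2.natAbs ≤ θ.1 ^ L}

/-- the primes dividing `w` -/
noncomputable def gW (c z : ℕ) (w : ℤ) : ℝ :=
  ∏ p ∈ w.natAbs.primeFactors.filter (fun p => z < p), (p : ℝ) / ((p : ℝ) - c)

lemma one_le_gW {c z : ℕ} (hcz : c < z) (w : ℤ) : 1 ≤ gW c z w := by
  unfold gW
  refine one_le_prod fun p hp => ?_
  have h1 : (c : ℝ) < p := by exact_mod_cast (by have := (mem_filter.1 hp).2; omega : c < p)
  rw [one_le_div (by linarith)]
  have : (0 : ℝ) ≤ c := Nat.cast_nonneg c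
  linarith

lemma gW_le {c z : ℕ} (hcz : 2 * c + 2 ≤ z) (w : ℤ) :
    gW c z w ≤ (∏ p ∈ w.natAbs.primeFactors, (1 + 1 / (p : ℝ))) ^ (2 * c) := by
  unfold gW
  rw [← prod_pow]
  have h1 : ∀ p ∈ w.natAbs.primeFactors.filter (fun p => z < p),
      (p : ℝ) / ((p : ℝ) - c) ≤ (1 + 1 / (p : ℝ)) ^ (2 * c) := by
    intro p hp
    have hzp := (mem_filter.1 hp).2
    have h2 : 2 * (c : ℝ) + 2 < p := by exact_mod_cast (by omega : 2 * c + 2 < p)
    have hc0 : (0 : ℝ) ≤ c := Nat.cast_nonneg c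
    have hp0 : (0 : ℝ) < p := by linarith
    have h3 := one_add_mul_le_pow (a := 1 / (p : ℝ)) (by
      have : 0 ≤ 1 / (p : ℝ) := by positivity
      linarith) (2 * c)
    refine le_trans ?_ h3
    rw [div_le_iff₀ (by linarith)]
    push_cast
    have e : (1 + 2 * (c : ℝ) * (1 / p)) * (p - c) = p + c - 2 * c ^ 2 / p := by
      field_simp
      ring
    rw [e]
    have h4 : 2 * (c : ℝ) ^ 2 / p ≤ c := by
      rw [div_le_iff₀ hp0]
      nlinarith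
    linarith
  refine (prod_le_prod (fun p hp => ?_) h1).trans ?_
  · have hzp := (mem_filter.1 hp).2
    have h2 : (c : ℝ) < p := by exact_mod_cast (by omega : c < p)
    exact div_nonneg (Nat.cast_nonneg _) (by linarith)
  · refine prod_le_prod_of_subset_of_one_le (filter_subset _ _) (fun p _ => by positivity)
      fun p _ _ => ?_
    apply one_le_pow₀
    have : 0 ≤ 1 / (p : ℝ) := by positivity
    linarith

open Classical in
/-- **the average over the short intervals on a line** -/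
theorem avgL (D : HFam J) (hD : D.OK) (d σ : J → ℝ) (hd : ∀ j, 0 < d j) (hσ0 : ∀ j, 0 ≤ σ j)
    (hσ : ∀ k : Fin 4, k ≠ 3 → Wc D.cls σ k < Wo D.cls d - Wc D.cls d k)
    (hm : ∃ z0 : ℕ, ∀ z, z0 ≤ z → ∃ C0 E0 : ℝ, Mdl D.cls D.g d σ D.c z C0 E0) :
    ∃ α : ℝ, 0 < α ∧ α ≤ 1 ∧ ∀ L : ℕ, 1 ≤ L → ∃ C : ℝ, 0 ≤ C ∧ ∀ (X : ℕ) (w N : ℤ), 1 ≤ X →
      w ≠ 0 → w.natAbs ≤ X ^ L → N.natAbs ≤ X ^ L →
      ∑ a ∈ (Ioc N (N + X)).filter (fun a : ℤ => IsCoprime a (w + D.κ * a) ∧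
        ∀ j, D.F a (w + D.κ * a) j ≠ 0),
        ((2 : ℝ) ^ Module.finrank ℤ
          (EAB (D.A a (w + D.κ * a)) (D.B a (w + D.κ * a))).toAffine.Point) ^ α ≤
          C * (X : ℝ) * (∏ p ∈ w.natAbs.primeFactors, (1 + 1 / (p : ℝ))) ^ (2 * D.c) := by
  obtain ⟨α, hα0, hα1, hmdl⟩ := mdl_alpha D.cls d σ hd hσ0 hσ
  refine ⟨α, hα0, hα1, ?_⟩
  intro L hL
  obtain ⟨z0, hz0⟩ := hm
  obtain ⟨z, hz⟩ : ∃ z : ℕ, z = z0 + D.z1 * (D.κ.natAbs + 1) ^ D.dg + D.z1 + 2 * D.c + 2 :=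
    ⟨_, rfl⟩
  obtain ⟨C0, E0, hM⟩ := hz0 z (by omega)
  obtain ⟨CM, hCM⟩ := hmdl D.g D.c z C0 E0 hM
  obtain ⟨Cc, K, y0, hCc0, hK1, hcn⟩ := fix_leG D hD z (by omega) (by omega)
  -- the rank
  let r : ℤ × ℤ → ℝ := fun t =>
    ((2 : ℝ) ^ Module.finrank ℤ (EAB (D.A t.1 t.2) (D.B t.1 t.2)).toAffine.Point) ^ α
  have hr0 : ∀ t, 0 ≤ r t := fun t => Real.rpow_nonneg (by positivity) _
  have hgbd : ∀ (i : J × Ty) (p : ℕ), 0 ≤ D.g i p ∧ D.g i p ≤ D.c := fun i p =>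
    ⟨D.g_nonneg i p, hD.g_le i p⟩
  have hcz : D.c < z := by omega
  have hgn : ∀ {y' : ℕ} {s : J × Ty → ℕ} (_ : s ∈ Tup (J × Ty) z y')
      (i : J × Ty), 0 ≤ gp (D.g i) D.c (s i) := fun hs i =>
    gp_nonnegG hcz i ((Pool.Agent.W372.RK2.mem_Tup'.1 hs).1 i)
  obtain ⟨q, hq⟩ : ∃ q : ℕ, q = 2 * D.κ.natAbs + 2 := ⟨_, rfl⟩
  have hbound : ∀ (X : ℕ) (w N a : ℤ), 1 ≤ X → w.natAbs ≤ X ^ L → N.natAbs ≤ X ^ L →
      a ∈ Ioc N (N + X) → a.natAbs ≤ q * X ^ L ∧ (w + D.κ * a).natAbs ≤ q * X ^ L := by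
    intro X w N a hX hw hN ha
    rw [mem_Ioc] at ha
    obtain ⟨b1, b2⟩ := ha
    have h2 : X ≤ X ^ L := Nat.le_self_pow (by omega) X
    have h3 : a.natAbs ≤ 2 * X ^ L := by omega
    have h4 : (w + D.κ * a).natAbs ≤ w.natAbs + D.κ.natAbs * a.natAbs := by
      have := Int.natAbs_add_le w (D.κ * a)
      rwa [Int.natAbs_mul] at this
    have h5 : D.κ.natAbs * a.natAbs ≤ D.κ.natAbs * (2 * X ^ L) := Nat.mul_le_mul_left _ h3
    have h6 : q * X ^ L = D.κ.natAbs * (2 * X ^ L) + X ^ L + X ^ L := by rw [hq]; ring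
    constructor <;> omega
  suffices key : ∃ C2 : ℝ, ∀ θ : ScL L, ∑ a ∈ (Ioc θ.1.2.2 (θ.1.2.2 + θ.1.1)).filter
      (fun a : ℤ => IsCoprime a (θ.1.2.1 + D.κ * a) ∧ ∀ j, D.F a (θ.1.2.1 + D.κ * a) j ≠ 0),
      r (a, θ.1.2.1 + D.κ * a) ≤ C2 * ((θ.1.1 : ℝ) * gW D.c z θ.1.2.1) by
    obtain ⟨C2, hC2⟩ := key
    refine ⟨max C2 0, le_max_right _ _, fun X w N hX hw0 hw hN => ?_⟩
    refine (hC2 ⟨(X, w, N), hX, hw0, hw, hN⟩).trans ?_
    have h1 := gW_le (c := D.c) (z := z) (by omega) w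
    have h2 := one_le_gW hcz w
    rw [mul_assoc]
    refine mul_le_mul (le_max_left _ _) (mul_le_mul_of_nonneg_left h1 (Nat.cast_nonneg _))
      (mul_nonneg (Nat.cast_nonneg _) (by change 0 ≤ gW D.c z w; linarith)) (le_max_right _ _)
  refine Pool.Agent.Y455.Z8.antx (J × Ty) ℤ (ScL L)
    (fun θ => (Ioc θ.1.2.2 (θ.1.2.2 + θ.1.1)).filter
      (fun a : ℤ => IsCoprime a (θ.1.2.1 + D.κ * a) ∧ ∀ j, D.F a (θ.1.2.1 + D.κ * a) j ≠ 0))
    (fun θ => θ.1.1) (fun θ a => D.pr z a (θ.1.2.1 + D.κ * a))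
    (fun θ => (θ.1.1 : ℝ) * gW D.c z θ.1.2.1) z
    (fun y => Real.exp (∑ j, Sp (rs D.g j) z y))
    (fun s => NBA α (clsI D.cls) eI s * ∏ i, gp (D.g i) D.c (s i))
    (fun v => ∏ i, ((4 : ℝ) ^ (v i).primeFactors.card * (gp (D.g i) D.c (v i) / v i)))
    (fun w => ∏ i, ((D.c : ℝ) ^ (w i).primeFactors.card / (w i : ℝ)))
    (fun θ a => r (a, θ.1.2.1 + D.κ * a))
    (Cc * (4 ^ (z + Fintype.card J + 2) * (4 ^ (Fintype.card J * D.dg)) ^ q))
    ((4 ^ (Fintype.card J * D.dg)) ^ L) K y0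
    (by omega) (fun y hy => Real.exp_pos _)
    (fun θ => θ.2.1) (fun θ => mul_nonneg (Nat.cast_nonneg _)
      (by have := one_le_gW hcz θ.1.2.1; linarith)) (fun X0 => ?_) (fun θ t ht => ?_)
    (fun θ t => hr0 _) (by positivity) (one_le_pow₀ (one_le_pow₀ (by norm_num))) hK1
    (fun y s hs => ⟨?_, ?_⟩) (fun y Y hzy w hw => ?_) (fun lam hlam => ?_)
    (fun lam hlam => ?_) (fun lam hlam => ?_) ?_
  · -- small scales
    refine ⟨∑ t ∈ Box (q * X0 ^ L), r t, ?_⟩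
    rintro ⟨⟨X, w, N⟩, hX, hw0, hw, hN⟩ hle
    simp only at hle hX hw0 hw hN ⊢
    have e1 : ∑ a ∈ (Ioc N (N + X)).filter (fun a : ℤ =>
        IsCoprime a (w + D.κ * a) ∧ ∀ j, D.F a (w + D.κ * a) j ≠ 0), r (a, w + D.κ * a) ≤
        ∑ t ∈ Box (q * X0 ^ L), r t := by
      rw [← sum_image (f := r) (g := fun a : ℤ => (a, w + D.κ * a))
        (fun a _ b _ h => (Prod.ext_iff.1 h).1)]
      refine sum_le_sum_of_subset_of_nonneg ?_ fun t _ _ => hr0 _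
      intro t ht
      obtain ⟨a, ha, rfl⟩ := mem_image.1 ht
      have h4 := hbound X w N a hX hw hN (mem_filter.1 ha).1
      have h5 : q * X ^ L ≤ q * X0 ^ L := Nat.mul_le_mul_left _ (Nat.pow_le_pow_left hle L)
      exact mem_Box.2 ⟨h4.1.trans h5, h4.2.trans h5⟩
    have e2 : (1 : ℝ) ≤ (X : ℝ) * gW D.c z w := by
      have h1 := one_le_gW hcz w
      have h2 : (1 : ℝ) ≤ X := by exact_mod_cast hX
      nlinarith
    exact e1.trans (le_mul_of_one_le_right (sum_nonneg fun _ _ => hr0 _) e2)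
  · have h4 := (mem_filter.1 ht).2
    exact prv_Gd h4.2 (fun p hp hzp j l => hD.un p hp (by omega) _ _ (cop_nd h4.1 hp) j l)
  · exact mul_nonneg (NBA_nonneg _ _ _) (prod_nonneg fun i _ => hgn hs i)
  · exact prod_nonneg fun i _ => mul_nonneg (by positivity)
      (div_nonneg (hgn hs i) (Nat.cast_nonneg _))
  · exact prod_nonneg fun i _ => by positivity
  · -- the first sum
    obtain ⟨A, hA⟩ := RSPf.rsp (J × Ty) z D.c D.g (NBA α (clsI D.cls) eI)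
      (fun y => CM * Real.exp (∑ j, Sp (rs D.g j) z y)) 4 lam (by omega) hgbd (by norm_num) hlam
      (NBA_nonneg _ _)
      (fun y hy s e' hse => suba hα0.le hα1 (clsI D.cls) eI z y s e' hse)
      (fun y hy => hCM y hy)
    refine ⟨A * CM, fun y hy => ?_⟩
    have := hA y hy
    rw [mul_assoc]
    exact this
  · exact RVU.rvp (J × Ty) z D.c D.g 4 lam (by omega) hgbd (by norm_num) hlam
  · exact RVU.rup (J × Ty) (D.c : ℝ) lam (by exact_mod_cast hD.c1) hlam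
  -- the local majorant
  rintro ⟨⟨X, b, N⟩, hX1, hb0, hb, hN⟩ y Y k hy0 hzy hyK hk s hs v hv w hw h8 T' hT' hval
  simp only at hX1 hb0 hb hN hyK hk h8 hT' hval ⊢
  obtain ⟨W, hW⟩ : ∃ W : ℝ, W = 4 ^ (z + Fintype.card J + 2) *
      (4 ^ (Fintype.card J * D.dg)) ^ (k * L + q) * 4 ^ (∑ i, (v i).primeFactors.card) *
      NBA α (clsI D.cls) eI s := ⟨_, rfl⟩
  have hW0 : 0 ≤ W := by
    rw [hW]
    exact mul_nonneg (by positivity) (NBA_nonneg _ _ _)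
  have hk' : q * X ^ L < (y + 1) ^ (k * L + q) := by
    have h1 : X ^ L < ((y + 1) ^ k) ^ L := Nat.pow_lt_pow_left hk (by omega)
    rw [← pow_mul] at h1
    have h2 : q ≤ (y + 1) ^ q :=
      (Nat.lt_two_pow_self (n := q)).le.trans (Nat.pow_le_pow_left (by omega) q)
    rw [pow_add]
    calc q * X ^ L < q * (y + 1) ^ (k * L) := Nat.mul_lt_mul_of_pos_left h1 (by omega)
      _ ≤ (y + 1) ^ (k * L) * (y + 1) ^ q := by
        rw [mul_comm]
        exact Nat.mul_le_mul_left _ h2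
  have e1 : ∀ a ∈ T', r (a, b + D.κ * a) ≤ W := by
    intro a ha
    have h4 := mem_filter.1 (hT' ha)
    obtain ⟨hts, htv, _⟩ := hval a ha
    have h5 := hbound X b N a hX1 hb hN h4.1
    have h6 := rnkA hD hα0.le hα1 (z := z) (by omega) (by omega) h4.2.1 h4.2.2 h5.1 h5.2
      (Nat.mul_pos (by omega) (Nat.pow_pos (by omega))) hzy hk'
    rw [hts, htv] at h6
    rw [hW]
    exact h6
  have e3 : (T'.card : ℝ) ≤ Cc * X * RWG D s v w * D.E z y * gW D.c z b := by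
    have h1 := hcn X y Y hy0 hzy hyK s hs v hv w hw h8 b (-N) hb0
    have h4 : T'.card ≤ ((Icc 1 X).filter (fun t : ℕ =>
        GG D z y s v w ((t : ℤ) - (-N)) (b + D.κ * ((t : ℤ) - (-N))))).card := by
      apply card_le_card_of_injOn (fun a : ℤ => (a - N).toNat)
      · intro a ha
        have ha' := mem_coe.1 ha
        have h5 := mem_filter.1 (hT' ha')
        have h6 := hval a ha'
        have h7 : N < a ∧ a ≤ N + X := mem_Ioc.1 h5.1
        have e : (((a - N).toNat : ℕ) : ℤ) = a - N := Int.toNat_of_nonneg (by omega)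
        rw [mem_coe, mem_filter, mem_Icc, e]
        have e0 : 1 ≤ (a - N).toNat ∧ (a - N).toNat ≤ X := by constructor <;> omega
        refine ⟨e0, ?_⟩
        have e2 : a - N - (-N) = a := by ring
        rw [e2]
        exact ⟨h5.2.1, h5.2.2, h6.1, h6.2.1, h6.2.2⟩
      · intro a ha a' ha' h
        have h5 : N < a ∧ a ≤ N + X := mem_Ioc.1 (mem_filter.1 (hT' (mem_coe.1 ha))).1
        have h6 : N < a' ∧ a' ≤ N + X := mem_Ioc.1 (mem_filter.1 (hT' (mem_coe.1 ha'))).1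
        have h' : (a - N).toNat = (a' - N).toNat := h
        omega
    have h5 : (T'.card : ℝ) ≤ (((Icc 1 X).filter (fun t : ℕ =>
        GG D z y s v w ((t : ℤ) - (-N)) (b + D.κ * ((t : ℤ) - (-N))))).card : ℝ) := by
      exact_mod_cast h4
    refine h5.trans (h1.trans (le_of_eq ?_))
    unfold RWG gW
    ring
  calc ∑ a ∈ T', r (a, b + D.κ * a) ≤ ∑ _a ∈ T', W := sum_le_sum e1
    _ = (T'.card : ℝ) * W := by rw [sum_const, nsmul_eq_mul]
    _ ≤ _ := mul_le_mul_of_nonneg_right e3 hW0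
    _ = _ := by
        rw [hW, prod_mul_distrib (f := fun i => (4 : ℝ) ^ (v i).primeFactors.card),
          prod_pow_eq_pow_sum, E_eq hD]
        unfold RWG
        rw [div_eq_mul_inv _ (Real.exp _), pow_add _ (k * L), mul_comm k L, pow_mul _ L k]
        ring

open Classical in
/-- the average over a subset of a short interval -/
theorem avgLS (D : HFam J) (hD : D.OK) (d σ : J → ℝ) (hd : ∀ j, 0 < d j) (hσ0 : ∀ j, 0 ≤ σ j)
    (hσ : ∀ k : Fin 4, k ≠ 3 → Wc D.cls σ k < Wo D.cls d - Wc D.cls d k)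
    (hm : ∃ z0 : ℕ, ∀ z, z0 ≤ z → ∃ C0 E0 : ℝ, Mdl D.cls D.g d σ D.c z C0 E0) :
    ∃ α : ℝ, 0 < α ∧ α ≤ 1 ∧ ∀ L : ℕ, 1 ≤ L → ∃ C : ℝ, 0 ≤ C ∧ ∀ (X : ℕ) (w N : ℤ), 1 ≤ X →
      w ≠ 0 → w.natAbs ≤ X ^ L → N.natAbs ≤ X ^ L → ∀ S : Finset ℤ, S ⊆ Ioc N (N + X) →
      (∀ a ∈ S, IsCoprime a (w + D.κ * a) ∧ ∀ j, D.F a (w + D.κ * a) j ≠ 0) →
      ∑ a ∈ S,
        ((2 : ℝ) ^ Module.finrank ℤ
          (EAB (D.A a (w + D.κ * a)) (D.B a (w + D.κ * a))).toAffine.Point) ^ α ≤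
          C * (X : ℝ) * (∏ p ∈ w.natAbs.primeFactors, (1 + 1 / (p : ℝ))) ^ (2 * D.c) := by
  obtain ⟨α, h1, h2, h⟩ := avgL D hD d σ hd hσ0 hσ hm
  refine ⟨α, h1, h2, fun L hL => ?_⟩
  obtain ⟨C, h3, h4⟩ := h L hL
  refine ⟨C, h3, fun X w N hX hw0 hw hN S hS hS2 => ?_⟩
  refine le_trans (sum_le_sum_of_subset_of_nonneg ?_ fun t _ _ =>
    Real.rpow_nonneg (by positivity) _) (h4 X w N hX hw0 hw hN)
  intro t ht
  exact mem_filter.2 ⟨hS ht, hS2 t ht⟩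

end Pool.Agent.T6.H39.HS
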